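import Pool.Agent.Helper99.GL.FDefs

/-!
# Homogeneous polynomials in two variables and their dehomogenization
-/

set_option autoImplicit false

open MvPolynomial

namespace Pool.GL.H85

/-- the bivariate polynomials -/
abbrev MP := MvPolynomial (Fin 2) ℂ

/-- dehomogenization -/
noncomputable def D : MP →ₐ[ℂ] Polynomial ℂ := aeval ![(1 : Polynomial ℂ), Polynomial.X]

lemma D_X0 : D (X 0) = 1 := by simp [D]

lemma D_X1 : D (X 1) = Polynomial.X := by simp [D]

lemma D_C (c : ℂ) : D (C c) = Polynomial.C c := by
  simp [D]

/-- exponents -/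
noncomputable def mon (i j : ℕ) : Fin 2 →₀ ℕ := Finsupp.single 0 i + Finsupp.single 1 j

lemma mon_zero (i j : ℕ) : mon i j 0 = i := by simp [mon]

lemma mon_one (i j : ℕ) : mon i j 1 = j := by simp [mon]

lemma eq_mon (m : Fin 2 →₀ ℕ) : m = mon (m 0) (m 1) := by
  ext i
  fin_cases i
  · simp [mon]
  · simp [mon]

lemma mon_degree (i j : ℕ) : (mon i j).degree = i + j := by
  simp [mon, Finsupp.degree_eq_sum, Fin.sum_univ_two]

lemma degree_two (m : Fin 2 →₀ ℕ) : m.degree = m 0 + m 1 := by
  rw [Finsupp.degree_eq_sum, Fin.sum_univ_two]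

lemma D_monomial (m : Fin 2 →₀ ℕ) (c : ℂ) : D (monomial m c) = Polynomial.monomial (m 1) c := by
  rw [D, aeval_monomial, Finsupp.prod_fintype _ _ (by simp), Fin.prod_univ_two]
  simp [Polynomial.C_mul_X_pow_eq_monomial]

lemma coeff_D {h : MP} {n : ℕ} (hh : h.IsHomogeneous n) {j : ℕ} (hj : j ≤ n) :
    (D h).coeff j = coeff (mon (n - j) j) h := by
  conv_lhs => rw [h.as_sum]
  rw [map_sum, Polynomial.finsetSum_coeff]
  simp_rw [D_monomial, Polynomial.coeff_monomial]
  have key : ∀ m ∈ h.support, (if m 1 = j then coeff m h else 0) =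
      if m = mon (n - j) j then coeff m h else 0 := by
    intro m hm
    have h1 : m.degree = n := by
      by_contra hne
      exact (mem_support_iff.mp hm) (hh.coeff_eq_zero hne)
    rw [degree_two] at h1
    by_cases h2 : m 1 = j
    · have h3 : m = mon (n - j) j := by
        rw [eq_mon m, h2]
        congr 1
        omega
      rw [if_pos h2, if_pos h3]
    · have h3 : m ≠ mon (n - j) j := by
        intro h4
        apply h2
        rw [h4, mon_one]
      rw [if_neg h2, if_neg h3]
  rw [Finset.sum_congr rfl key, Finset.sum_ite_eq']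
  by_cases h5 : mon (n - j) j ∈ h.support
  · rw [if_pos h5]
  · rw [if_neg h5]
    exact (notMem_support_iff.mp h5).symm

lemma natDegree_D_le {h : MP} {n : ℕ} (hh : h.totalDegree ≤ n) : (D h).natDegree ≤ n := by
  rw [h.as_sum, map_sum]
  apply Polynomial.natDegree_sum_le_of_forall_le
  intro m hm
  rw [D_monomial]
  refine (Polynomial.natDegree_monomial_le _).trans ?_
  have h1 := le_totalDegree hm
  have h2 : (m.sum fun _ e => e) = m 0 + m 1 := by
    rw [Finsupp.sum_fintype _ _ (by simp), Fin.sum_univ_two]
  omega

/-- dehomogenization is injective on homogeneous polynomials -/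
lemma D_inj {h : MP} {n : ℕ} (hh : h.IsHomogeneous n) (h0 : D h = 0) : h = 0 := by
  ext m
  rw [coeff_zero]
  by_contra hne
  have h1 : m.degree = n := by
    by_contra hc
    exact hne (hh.coeff_eq_zero hc)
  rw [degree_two] at h1
  have h2 := coeff_D hh (j := m 1) (by omega)
  rw [h0, Polynomial.coeff_zero] at h2
  apply hne
  rw [eq_mon m]
  rw [h2]
  congr 2
  omega

lemma D_inj' {g h : MP} {n : ℕ} (hg : g.IsHomogeneous n) (hh : h.IsHomogeneous n)
    (h0 : D g = D h) : g = h := by
  have := D_inj (hg.sub hh) (by rw [map_sub, h0, sub_self])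
  exact sub_eq_zero.mp this

/-- homogenization -/
noncomputable def Hm (n : ℕ) (p : Polynomial ℂ) : MP :=
  ∑ j ∈ Finset.range (n + 1), monomial (mon (n - j) j) (p.coeff j)

lemma Hm_hom (n : ℕ) (p : Polynomial ℂ) : (Hm n p).IsHomogeneous n := by
  apply IsHomogeneous.sum
  intro j hj
  rw [Finset.mem_range] at hj
  apply isHomogeneous_monomial
  rw [mon_degree]
  omega

lemma D_Hm {n : ℕ} {p : Polynomial ℂ} (hp : p.natDegree ≤ n) : D (Hm n p) = p := by
  rw [Hm, map_sum]
  simp_rw [D_monomial, mon_one]
  exact (p.as_sum_range' (n + 1) (by omega)).symm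

lemma Hm_zero (n : ℕ) : Hm n 0 = 0 := by simp [Hm]

lemma D_pderiv_one (h : MP) : D (pderiv 1 h) = Polynomial.derivative (D h) := by
  induction h using MvPolynomial.induction_on with
  | C c => simp
  | add p q hp hq => rw [map_add, map_add, map_add, map_add, hp, hq]
  | mul_X p i hp =>
    rw [Derivation.leibniz, map_add, smul_eq_mul, smul_eq_mul, map_mul, map_mul, map_mul, hp,
      Polynomial.derivative_mul]
    fin_cases i
    · simp [D_X0, pderiv_X]
    · simp [D_X1, pderiv_X]
      ring

lemma D_pderiv_zero {h : MP} {n : ℕ} (hh : h.IsHomogeneous n) :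
    D (pderiv 0 h) = (n : Polynomial ℂ) * D h - Polynomial.X * Polynomial.derivative (D h) := by
  have h1 := hh.sum_X_mul_pderiv
  rw [Fin.sum_univ_two] at h1
  have h2 := congrArg D h1
  rw [map_add, map_mul, map_mul, D_X0, D_X1, D_pderiv_one, map_nsmul, one_mul, nsmul_eq_mul] at h2
  linear_combination h2

/-- decomposition in homogeneous components with an upper bound of the degree -/
lemma sum_hc {h : MP} {n : ℕ} (hh : h.totalDegree ≤ n) :
    ∑ i ∈ Finset.range (n + 1), homogeneousComponent i h = h := by
  conv_rhs => rw [← sum_homogeneousComponent h]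
  symm
  apply Finset.sum_subset
  · intro i hi
    rw [Finset.mem_range] at hi ⊢
    omega
  · intro i _ hi
    rw [Finset.mem_range] at hi
    exact homogeneousComponent_eq_zero _ _ (by omega)

lemma sum_hc' {h : MP} {n : ℕ} (hh : h.totalDegree ≤ n) :
    ∑ i ∈ Finset.range (n + 1), homogeneousComponent (n - i) h = h := by
  conv_rhs => rw [← sum_hc hh]
  rw [← Finset.sum_range_reflect]
  apply Finset.sum_congr rfl
  intro i hi
  rw [Finset.mem_range] at hi
  congr 2
  omega

lemma hc_of_hom {h : MP} {n : ℕ} (m : ℕ) (hh : h.IsHomogeneous n) :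
    homogeneousComponent m h = if m = n then h else 0 :=
  homogeneousComponent_of_mem hh

/-- top component of a product -/
lemma hc_mul {g h : MP} {m n : ℕ} (hg : g.totalDegree ≤ m) (hh : h.totalDegree ≤ n) :
    homogeneousComponent (m + n) (g * h) = homogeneousComponent m g * homogeneousComponent n h := by
  conv_lhs => rw [← sum_hc hg, ← sum_hc hh, Finset.sum_mul_sum]
  rw [map_sum, Finset.sum_eq_single m]
  · rw [map_sum, Finset.sum_eq_single n]
    · rw [hc_of_hom _ ((homogeneousComponent_isHomogeneous m g).mul
        (homogeneousComponent_isHomogeneous n h)), if_pos rfl]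
    · intro j hj hjn
      rw [Finset.mem_range] at hj
      rw [hc_of_hom _ ((homogeneousComponent_isHomogeneous m g).mul
        (homogeneousComponent_isHomogeneous j h)), if_neg (by omega)]
    · intro hn
      exact absurd (Finset.mem_range.mpr (by omega)) hn
  · intro i hi him
    rw [Finset.mem_range] at hi
    rw [map_sum]
    apply Finset.sum_eq_zero
    intro j hj
    rw [Finset.mem_range] at hj
    rw [hc_of_hom _ ((homogeneousComponent_isHomogeneous i g).mul
      (homogeneousComponent_isHomogeneous j h)), if_neg (by omega)]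
  · intro hm
    exact absurd (Finset.mem_range.mpr (by omega)) hm

/-- components of a product with a homogeneous factor -/
lemma hc_mul_hom {g : MP} {n : ℕ} (hg : g.IsHomogeneous n) (m : ℕ) (w : MP) :
    homogeneousComponent (n + m) (g * w) = g * homogeneousComponent m w := by
  conv_lhs => rw [← sum_homogeneousComponent w, Finset.mul_sum]
  rw [map_sum]
  have key : ∀ i ∈ Finset.range (w.totalDegree + 1),
      homogeneousComponent (n + m) (g * homogeneousComponent i w) =
        if i = m then g * homogeneousComponent i w else 0 := by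
    intro i _
    rw [hc_of_hom _ (hg.mul (homogeneousComponent_isHomogeneous i w))]
    by_cases h : i = m
    · rw [if_pos h, if_pos (by omega)]
    · rw [if_neg h, if_neg (by omega)]
  rw [Finset.sum_congr rfl key, Finset.sum_ite_eq']
  by_cases h : m ∈ Finset.range (w.totalDegree + 1)
  · rw [if_pos h]
  · rw [if_neg h]
    rw [Finset.mem_range] at h
    rw [homogeneousComponent_eq_zero _ _ (by omega), mul_zero]

/-- the degree drops when the top component vanishes -/
lemma totalDegree_le_of_hc {h : MP} {n : ℕ} (hh : h.totalDegree ≤ n + 1)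
    (h0 : homogeneousComponent (n + 1) h = 0) : h.totalDegree ≤ n := by
  have h1 := sum_hc hh
  rw [Finset.sum_range_succ, h0, add_zero] at h1
  rw [← h1]
  apply (totalDegree_finsetSum _ _).trans
  apply Finset.sup_le
  intro i hi
  rw [Finset.mem_range] at hi
  exact ((homogeneousComponent_isHomogeneous i h).totalDegree_le).trans (by omega)

end Pool.GL.H85
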