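import Pool.Agent.Helper99.GL.FSpec
import Pool.Agent.Helper85.GL.Tool

/-!
# F18a: coprimality of the top parts
-/

set_option autoImplicit false

open MvPolynomial

namespace Pool.GL.H85

lemma inf_b_zero (F : Fld) : F.inf.b 0 =
    D (homogeneousComponent F.d F.Q) - Polynomial.X * D (homogeneousComponent F.d F.P) := by
  simp only [Fld.inf, D, Nat.sub_zero]

lemma inf_a_zero (F : Fld) : F.inf.a 0 = - D (homogeneousComponent F.d F.P) := by
  simp only [Fld.inf, D, Nat.sub_zero]

lemma no_common_root {F : Fld} (hF : F.Good) (s : ℂ)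
    (hP : (D (homogeneousComponent F.d F.P)).eval s = 0)
    (hQ : (D (homogeneousComponent F.d F.Q)).eval s = 0) : False := by
  have hb : (F.inf.b 0).eval s = 0 := by
    rw [inf_b_zero]; simp [hP, hQ]
  obtain ⟨_, h2⟩ := hF.hypInf s hb
  apply h2
  rw [inf_a_zero, Polynomial.eval_neg, hP]
  simp

lemma natDegree_DP {F : Fld} (hF : F.Good) :
    (D (homogeneousComponent F.d F.P)).coeff F.d ≠ 0 := by
  have h1 := hF.lead
  rw [inf_b_zero, Polynomial.coeff_sub, Polynomial.coeff_X_mul] at h1
  have h2 : (D (homogeneousComponent F.d F.Q)).coeff (F.d + 1) = 0 := by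
    apply Polynomial.coeff_eq_zero_of_natDegree_lt
    have := natDegree_D_le (homogeneousComponent_isHomogeneous F.d F.Q).totalDegree_le
    omega
  rw [h2, zero_sub, neg_ne_zero] at h1
  exact h1

lemma Pd_ne {F : Fld} (hF : F.Good) : homogeneousComponent F.d F.P ≠ 0 := by
  intro h
  apply natDegree_DP hF
  rw [h]; simp

lemma Qd_ne {F : Fld} (hF : F.Good) : homogeneousComponent F.d F.Q ≠ 0 := by
  intro h
  have hb : F.inf.b 0 = - (Polynomial.X * D (homogeneousComponent F.d F.P)) := by
    rw [inf_b_zero, h]; simp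
  have h0 : (F.inf.b 0).eval 0 = 0 := by rw [hb]; simp
  obtain ⟨h1, h2⟩ := hF.hypInf 0 h0
  apply h2
  have h3 : (Polynomial.derivative (F.inf.b 0)).eval 0 = (F.inf.a 0).eval 0 := by
    rw [hb, inf_a_zero]
    simp [Polynomial.derivative_mul]
  rw [h3] at h1 ⊢
  rw [div_self h1]
  simp

theorem COP : S_COP := by
  intro F hF
  refine ⟨?_, Pd_ne hF, Qd_ne hF⟩
  intro g hgP hgQ
  have hPne := Pd_ne hF
  have hPhom := homogeneousComponent_isHomogeneous F.d F.P
  have hQhom := homogeneousComponent_isHomogeneous F.d F.Q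
  -- reduction to the top part of `g`
  have top : ∀ R : MP, R ≠ 0 → R.IsHomogeneous F.d → g ∣ R → ∃ u : MP,
      u.IsHomogeneous (F.d - g.totalDegree) ∧ g.totalDegree ≤ F.d ∧
      R = homogeneousComponent g.totalDegree g * u := by
    intro R hR hRh hgR
    obtain ⟨u, hu⟩ := hgR
    have hg0 : g ≠ 0 := by
      rintro rfl; apply hR; rw [hu, zero_mul]
    have hu0 : u ≠ 0 := by
      rintro rfl; apply hR; rw [hu, mul_zero]
    have hdeg := totalDegree_mul_of_isDomain hg0 hu0
    rw [← hu, hRh.totalDegree hR] at hdeg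
    refine ⟨homogeneousComponent u.totalDegree u, ?_, by omega, ?_⟩
    · have : F.d - g.totalDegree = u.totalDegree := by omega
      rw [this]
      exact homogeneousComponent_isHomogeneous _ _
    · have h1 := hc_mul (le_refl g.totalDegree) (le_refl u.totalDegree)
      rw [← hu, ← hdeg, homogeneousComponent_eq_self hRh] at h1
      exact h1
  obtain ⟨u, hu1, hgd, hu2⟩ := top _ hPne hPhom hgP
  obtain ⟨v, hv1, _, hv2⟩ := top _ (Qd_ne hF) hQhom hgQ
  set e := g.totalDegree with he
  set γ := homogeneousComponent e g with hγ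
  have hDP : D (homogeneousComponent F.d F.P) = D γ * D u := by rw [hu2, map_mul]
  have hDQ : D (homogeneousComponent F.d F.Q) = D γ * D v := by rw [hv2, map_mul]
  -- `D γ` has no root
  have hdeg0 : (D γ).natDegree = 0 := by
    by_contra hne
    have hne' : (D γ).degree ≠ 0 := by
      intro h
      exact hne (Polynomial.natDegree_eq_of_degree_eq_some h)
    obtain ⟨s, hs⟩ := IsAlgClosed.exists_root (D γ) hne'
    have hs' : (D γ).eval s = 0 := hs
    apply no_common_root hF s
    · rw [hDP, Polynomial.eval_mul, hs', zero_mul]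
    · rw [hDQ, Polynomial.eval_mul, hs', zero_mul]
  -- hence `e = 0`
  have he0 : e = 0 := by
    by_contra hne
    have h1 := natDegree_DP hF
    apply h1
    rw [hDP]
    apply Polynomial.coeff_eq_zero_of_natDegree_lt
    have h2 := Polynomial.natDegree_mul_le (p := D γ) (q := D u)
    have h3 := natDegree_D_le hu1.totalDegree_le
    omega
  -- `g` is a nonzero constant
  rw [he, totalDegree_eq_zero_iff_eq_C] at he0
  rw [he0]
  apply IsUnit.map
  apply isUnit_iff_ne_zero.mpr
  intro hc
  rw [hc, C_0] at he0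
  rw [he0] at hgP
  exact hPne (zero_dvd_iff.mp hgP)

end Pool.GL.H85
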