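import Pool.Agent.Helper99.GL.FSpec
import Pool.Agent.Helper85.GL.Tool
import Pool.Agent.Helper85.GL.F18a

/-!
# F17: from the polynomial solutions to an inverse integrating factor
-/

set_option autoImplicit false

open MvPolynomial

namespace Pool.GL.H85

/-- the bracket -/
noncomputable def br (P Q f : MP) : MP :=
  P * pderiv 0 f + Q * pderiv 1 f - (pderiv 0 P + pderiv 1 Q) * f

lemma br_zero (P Q : MP) : br P Q 0 = 0 := by simp [br]

lemma br_sum (P Q : ℕ → MP) (f : ℕ → MP) (s t : Finset ℕ) :
    br (∑ m ∈ s, P m) (∑ m ∈ s, Q m) (∑ k ∈ t, f k) = ∑ m ∈ s, ∑ k ∈ t, br (P m) (Q m) (f k) := by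
  simp only [br, map_sum]
  rw [Finset.sum_mul_sum, Finset.sum_mul_sum, ← Finset.sum_add_distrib, ← Finset.sum_add_distrib,
    Finset.sum_mul_sum, ← Finset.sum_sub_distrib]
  refine Finset.sum_congr rfl fun m _ => ?_
  rw [← Finset.sum_add_distrib, ← Finset.sum_sub_distrib]

/-- a constant has zero derivatives -/
lemma pderiv_hom_zero {i : Fin 2} {f : MP} (hf : f.IsHomogeneous 0) : pderiv i f = 0 := by
  have h := (totalDegree_eq_zero_iff_eq_C (p := f)).mp (by
    have := hf.totalDegree_le
    omega)
  rw [h, pderiv_C]

lemma br_hom {P Q f : MP} {a c n : ℕ} (hP : P.IsHomogeneous a) (hQ : Q.IsHomogeneous a)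
    (hf : f.IsHomogeneous c) (hn : n + 1 = a + c) : (br P Q f).IsHomogeneous n := by
  have h1 : ∀ (i : Fin 2) (G : MP), G.IsHomogeneous a → (G * pderiv i f).IsHomogeneous n := by
    intro i G hG
    rcases Nat.eq_zero_or_pos c with h0 | hpos
    · subst h0
      rw [pderiv_hom_zero hf, mul_zero]
      exact isHomogeneous_zero _ _ _
    · have := hG.mul (hf.pderiv (i := i))
      have e : a + (c - 1) = n := by omega
      rwa [e] at this
  have h2 : ∀ (i : Fin 2) (G : MP), G.IsHomogeneous a → (pderiv i G * f).IsHomogeneous n := by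
    intro i G hG
    rcases Nat.eq_zero_or_pos a with h0 | hpos
    · subst h0
      rw [pderiv_hom_zero hG, zero_mul]
      exact isHomogeneous_zero _ _ _
    · have := (hG.pderiv (i := i)).mul hf
      have e : (a - 1) + c = n := by omega
      rwa [e] at this
  rw [br, add_mul]
  exact ((h1 0 P hP).add (h1 1 Q hQ)).sub ((h2 0 P hP).add (h2 1 Q hQ))

lemma br_hom_zero {P Q f : MP} (hP : P.IsHomogeneous 0) (hQ : Q.IsHomogeneous 0)
    (hf : f.IsHomogeneous 0) : br P Q f = 0 := by
  rw [br, pderiv_hom_zero hf, pderiv_hom_zero hf, pderiv_hom_zero hP, pderiv_hom_zero hQ]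
  ring

lemma D_br {P Q f : MP} {a c : ℕ} (hP : P.IsHomogeneous a) (hf : f.IsHomogeneous c) :
    D (br P Q f) = (D Q - Polynomial.X * D P) * Polynomial.derivative (D f) +
      (((a : Polynomial ℂ) + 1) - (c : Polynomial ℂ)) * (- D P) * D f -
      Polynomial.derivative (D Q - Polynomial.X * D P) * D f := by
  rw [br, map_sub, map_add, map_mul, map_mul, map_mul, map_add, D_pderiv_zero hf, D_pderiv_zero hP,
    D_pderiv_one, D_pderiv_one, Polynomial.derivative_sub, Polynomial.derivative_mul,
    Polynomial.derivative_X]
  ring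

theorem ALG1 : S_ALG1 := by
  intro F hP hQ p hp
  obtain ⟨hp0, hpd, hpz, hpol⟩ := hp
  have hId : F.inf.d = F.d := rfl
  rw [hId] at hpd hpz hpol
  set d := F.d with hd
  set fk : ℕ → MP := fun k => Hm (d + 1 - k) (p k) with hfk
  set Pm : ℕ → MP := fun m => homogeneousComponent (d - m) F.P with hPm
  set Qm : ℕ → MP := fun m => homogeneousComponent (d - m) F.Q with hQm
  have hfkz : ∀ k, d + 1 < k → fk k = 0 := by
    intro k hk
    simp only [hfk, hpz k hk, Hm_zero]
  have hfkh : ∀ k, (fk k).IsHomogeneous (d + 1 - k) := fun k => Hm_hom _ _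
  have hDfk : ∀ k, D (fk k) = p k := by
    intro k
    rcases Nat.lt_or_ge (d + 1) k with h | h
    · rw [hfkz k h, map_zero, hpz k h]
    · exact D_Hm (hpd k h)
  have hPh : ∀ m, (Pm m).IsHomogeneous (d - m) := fun m => homogeneousComponent_isHomogeneous _ _
  have hQh : ∀ m, (Qm m).IsHomogeneous (d - m) := fun m => homogeneousComponent_isHomogeneous _ _
  have hPs : ∑ m ∈ Finset.range (d + 1), Pm m = F.P := sum_hc' hP
  have hQs : ∑ m ∈ Finset.range (d + 1), Qm m = F.Q := sum_hc' hQ
  have hbm : ∀ m, F.inf.b m = D (Qm m) - Polynomial.X * D (Pm m) := fun m => rfl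
  have ham : ∀ m, F.inf.a m = - D (Pm m) := fun m => rfl
  refine ⟨∑ k ∈ Finset.range (d + 2), fk k, ?_, ?_, ?_⟩
  · apply (totalDegree_finsetSum _ _).trans
    apply Finset.sup_le
    intro k _
    exact (hfkh k).totalDegree_le.trans (by omega)
  · rw [map_sum, Finset.sum_eq_single 0]
    · rw [hc_of_hom _ (hfkh 0), if_pos (by omega)]
      apply D_inj' (n := d + 1)
      · exact hfkh 0
      · have h1 : (X 0 * homogeneousComponent d F.Q : MP).IsHomogeneous (1 + d) :=
          (isHomogeneous_X _ _).mul (homogeneousComponent_isHomogeneous _ _)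
        have h2 : (X 1 * homogeneousComponent d F.P : MP).IsHomogeneous (1 + d) :=
          (isHomogeneous_X _ _).mul (homogeneousComponent_isHomogeneous _ _)
        rw [add_comm]
        exact h1.sub h2
      · rw [hDfk, hp0, inf_b_zero, map_sub, map_mul, map_mul, D_X0, D_X1, one_mul]
    · intro k _ hk
      rw [hc_of_hom _ (hfkh k), if_neg (by omega)]
    · intro h
      exact absurd (Finset.mem_range.mpr (by omega)) h
  · rw [← sub_eq_zero]
    change br F.P F.Q (∑ k ∈ Finset.range (d + 2), fk k) = 0
    rw [← hPs, ← hQs, br_sum]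
    -- regroup
    have hre : ∀ m ∈ Finset.range (d + 1),
        ∑ k ∈ Finset.range (d + 2), br (Pm m) (Qm m) (fk k) =
          ∑ K ∈ (Finset.range (2 * d + 2)).filter (fun K => m ≤ K),
            br (Pm m) (Qm m) (fk (K - m)) := by
      intro m hm
      rw [Finset.mem_range] at hm
      have h1 : (Finset.range (2 * d + 2)).filter (fun K => m ≤ K) =
          (Finset.range (2 * d + 2 - m)).image (fun k => k + m) := by
        ext K
        simp only [Finset.mem_filter, Finset.mem_range, Finset.mem_image]
        constructor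
        · rintro ⟨h1, h2⟩
          exact ⟨K - m, by omega, by omega⟩
        · rintro ⟨k, h1, h2⟩
          omega
      rw [h1, Finset.sum_image (by intro x _ y _ h; simpa using h)]
      simp only [Nat.add_sub_cancel]
      apply Finset.sum_subset
      · intro k hk
        rw [Finset.mem_range] at hk ⊢
        omega
      · intro k _ hk
        rw [Finset.mem_range] at hk
        rw [hfkz k (by omega), br_zero]
    rw [Finset.sum_congr rfl hre]
    have hsw : ∑ m ∈ Finset.range (d + 1),
        ∑ K ∈ (Finset.range (2 * d + 2)).filter (fun K => m ≤ K),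
            br (Pm m) (Qm m) (fk (K - m)) =
        ∑ K ∈ Finset.range (2 * d + 2), ∑ m ∈ (Finset.range (d + 1)).filter (fun m => m ≤ K),
            br (Pm m) (Qm m) (fk (K - m)) := by
      simp_rw [Finset.sum_filter]
      exact Finset.sum_comm
    rw [hsw]
    apply Finset.sum_eq_zero
    intro K hK
    rw [Finset.mem_range] at hK
    rcases Nat.lt_or_ge (2 * d) K with h2 | h2
    · apply Finset.sum_eq_zero
      intro m hm
      rw [Finset.mem_filter, Finset.mem_range] at hm
      rcases Nat.lt_or_ge (d + 1) (K - m) with h3 | h3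
      · rw [hfkz _ h3, br_zero]
      · have hm' : m = d := by omega
        have hK' : K - m = d + 1 := by omega
        apply br_hom_zero
        · have := hPh m
          rwa [show d - m = 0 by omega] at this
        · have := hQh m
          rwa [show d - m = 0 by omega] at this
        · have := hfkh (K - m)
          rwa [show d + 1 - (K - m) = 0 by omega] at this
    · apply D_inj (n := 2 * d - K)
      · apply IsHomogeneous.sum
        intro m hm
        rw [Finset.mem_filter, Finset.mem_range] at hm
        rcases Nat.lt_or_ge (d + 1) (K - m) with h3 | h3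
        · rw [hfkz _ h3, br_zero]
          exact isHomogeneous_zero _ _ _
        · exact br_hom (hPh m) (hQh m) (hfkh (K - m)) (by omega)
      · rw [map_sum, ← hpol K]
        apply Finset.sum_congr rfl
        intro m hm
        rw [Finset.mem_filter, Finset.mem_range] at hm
        rw [D_br (hPh m) (hfkh (K - m)), hDfk, hbm, ham]
        rcases Nat.lt_or_ge (d + 1) (K - m) with h3 | h3
        · rw [hpz _ h3]
          simp
        · have hc : (((d - m : ℕ) : Polynomial ℂ) + 1) - ((d + 1 - (K - m) : ℕ) : Polynomial ℂ) =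
              Polynomial.C ((K : ℂ) - 2 * m) := by
            have e1 : ((d - m : ℕ) : Polynomial ℂ) = (d : Polynomial ℂ) - m := by
              rw [Nat.cast_sub (by omega)]
            have e2 : ((d + 1 - (K - m) : ℕ) : Polynomial ℂ) =
                (d : Polynomial ℂ) + 1 - ((K : Polynomial ℂ) - m) := by
              rw [Nat.cast_sub h3, Nat.cast_sub hm.2]; push_cast; ring
            rw [e1, e2]
            simp only [map_sub, map_mul, map_natCast, map_ofNat]
            ring
          rw [hc]

end Pool.GL.H85
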