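import Pool.Agent.Helper99.GL.FSpec
import Pool.Agent.Helper85.GL.Tool

/-!
# F18b: low degree elements of the ideal `(P, Q)`
-/

set_option autoImplicit false

open MvPolynomial

namespace Pool.GL.H85

/-- a homogeneous multiple of a homogeneous polynomial -/
lemma hom_dvd {p q : MP} {n m : ℕ} (hp : p.IsHomogeneous n) (hq : q.IsHomogeneous m)
    (h : p ∣ q) : q = 0 ∨ (n ≤ m ∧ ∃ w : MP, w.IsHomogeneous (m - n) ∧ q = p * w) := by
  obtain ⟨w, hw⟩ := h
  by_cases hq0 : q = 0
  · exact Or.inl hq0
  right
  have hp0 : p ≠ 0 := by
    rintro rfl; apply hq0; rw [hw, zero_mul]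
  have hnm : n ≤ m := by
    have h1 := totalDegree_le_of_dvd_of_isDomain ⟨w, hw⟩ hq0
    rwa [hp.totalDegree hp0, hq.totalDegree hq0] at h1
  refine ⟨hnm, homogeneousComponent (m - n) w, homogeneousComponent_isHomogeneous _ _, ?_⟩
  have h1 := hc_mul_hom hp (m - n) w
  rw [← hw, Nat.add_sub_cancel' hnm, homogeneousComponent_eq_self hq] at h1
  exact h1

/-- a homogeneous unit has degree zero -/
lemma hom_unit {p : MP} {n : ℕ} (hp : p.IsHomogeneous n) (h : IsUnit p) : n = 0 := by
  have hp0 : p ≠ 0 := h.ne_zero
  obtain ⟨q, hq⟩ := h.exists_right_inv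
  have hq0 : q ≠ 0 := by
    rintro rfl
    rw [mul_zero] at hq
    exact zero_ne_one hq
  have h1 := totalDegree_mul_of_isDomain hp0 hq0
  rw [hq, totalDegree_one, hp.totalDegree hp0] at h1
  omega

lemma hbas_main {F : Fld} (hF : F.Good) (hc : S_COP) (h : MP) (hh : h.totalDegree ≤ F.d) :
    ∀ (D : ℕ) (u v : MP), u.totalDegree ≤ D → v.totalDegree ≤ D → h = u * F.P + v * F.Q →
    ∃ α β : ℂ, h = C α * F.P + C β * F.Q := by
  obtain ⟨hcop, hP0, hQ0⟩ := hc F hF
  have hd := hF.hd
  set Pd := homogeneousComponent F.d F.P with hPd
  set Qd := homogeneousComponent F.d F.Q with hQd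
  have hPh : Pd.IsHomogeneous F.d := homogeneousComponent_isHomogeneous _ _
  have hQh : Qd.IsHomogeneous F.d := homogeneousComponent_isHomogeneous _ _
  intro D
  induction D with
  | zero =>
    intro u v hu hv he
    have hu' := totalDegree_eq_zero_iff_eq_C.mp (Nat.le_zero.mp hu)
    have hv' := totalDegree_eq_zero_iff_eq_C.mp (Nat.le_zero.mp hv)
    exact ⟨coeff 0 u, coeff 0 v, by rw [← hu', ← hv']; exact he⟩
  | succ D ih =>
    intro u v hu hv he
    -- top parts
    have htop : homogeneousComponent (D + 1) u * Pd + homogeneousComponent (D + 1) v * Qd = 0 := by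
      have h1 := congrArg (homogeneousComponent (D + 1 + F.d)) he
      rw [map_add, hc_mul hu hF.degP, hc_mul hv hF.degQ,
        homogeneousComponent_eq_zero _ _ (by omega)] at h1
      exact h1.symm
    set uD := homogeneousComponent (D + 1) u with huD
    set vD := homogeneousComponent (D + 1) v with hvD
    have huh : uD.IsHomogeneous (D + 1) := homogeneousComponent_isHomogeneous _ _
    have hvh : vD.IsHomogeneous (D + 1) := homogeneousComponent_isHomogeneous _ _
    have hdvd : Pd ∣ vD := by
      apply hcop.dvd_of_dvd_mul_right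
      exact ⟨-uD, by linear_combination htop⟩
    rcases hom_dvd hPh hvh hdvd with h0 | ⟨hle, w, hwh, hw⟩
    · have hu0 : uD = 0 := by
        rw [h0, zero_mul, add_zero] at htop
        rcases mul_eq_zero.mp htop with h | h
        · exact h
        · exact absurd h hP0
      exact ih u v (totalDegree_le_of_hc hu hu0) (totalDegree_le_of_hc hv h0) he
    · have hu1 : uD = - (Qd * w) := by
        have h2 : (uD + Qd * w) * Pd = 0 := by
          rw [hw] at htop
          linear_combination htop
        rcases mul_eq_zero.mp h2 with h | h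
        · linear_combination h
        · exact absurd h hP0
      have hwd : w.totalDegree ≤ D + 1 - F.d := hwh.totalDegree_le
      have hsplit : F.d + (D + 1 - F.d) = D + 1 := by omega
      apply ih (u + F.Q * w) (v - F.P * w)
      · apply totalDegree_le_of_hc
        · refine (totalDegree_add _ _).trans (max_le hu ?_)
          refine (totalDegree_mul _ _).trans ?_
          have := hF.degQ
          omega
        · rw [map_add, ← huD]
          have h3 := hc_mul hF.degQ hwd
          rw [hsplit, homogeneousComponent_eq_self hwh] at h3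
          rw [h3, hu1]
          ring
      · apply totalDegree_le_of_hc
        · refine (totalDegree_sub _ _).trans (max_le hv ?_)
          refine (totalDegree_mul _ _).trans ?_
          have := hF.degP
          omega
        · rw [map_sub, ← hvD]
          have h3 := hc_mul hF.degP hwd
          rw [hsplit, homogeneousComponent_eq_self hwh] at h3
          rw [h3, hw]
          ring
      · rw [he]; ring

theorem HBAS (hc : S_COP) : S_HBAS := by
  intro F hF h hmem hh
  obtain ⟨u, v, huv⟩ := Ideal.mem_span_pair.mp hmem
  obtain ⟨α, β, hαβ⟩ := hbas_main hF hc h hh (max u.totalDegree v.totalDegree) u v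
    (le_max_left _ _) (le_max_right _ _) huv.symm
  refine ⟨⟨α, β, hαβ⟩, fun hlt => ?_⟩
  obtain ⟨hcop, hP0, hQ0⟩ := hc F hF
  have hd := hF.hd
  have hPh : (homogeneousComponent F.d F.P).IsHomogeneous F.d :=
    homogeneousComponent_isHomogeneous _ _
  have htop : C α * homogeneousComponent F.d F.P + C β * homogeneousComponent F.d F.Q = 0 := by
    have h1 := congrArg (homogeneousComponent F.d) hαβ
    rw [map_add, homogeneousComponent_C_mul, homogeneousComponent_C_mul,
      homogeneousComponent_eq_zero _ _ hlt] at h1
    exact h1.symm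
  have hβ : β = 0 := by
    by_contra hβ
    have hdvd : homogeneousComponent F.d F.P ∣ homogeneousComponent F.d F.Q := by
      refine ⟨C (- α / β), ?_⟩
      have h2 : C β * (homogeneousComponent F.d F.Q) =
          C β * (homogeneousComponent F.d F.P * C (-α / β)) := by
        have h3 : (C β : MP) * C (-α / β) = - C α := by
          rw [← C_mul, mul_div_cancel₀ _ hβ, C_neg]
        linear_combination htop - homogeneousComponent F.d F.P * h3
      exact mul_left_cancel₀ (by rwa [Ne, C_eq_zero]) h2
    have h4 := hom_unit hPh (hcop dvd_rfl hdvd)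
    omega
  have hα : α = 0 := by
    rw [hβ, C_0, zero_mul, add_zero] at htop
    rcases mul_eq_zero.mp htop with h | h
    · exact C_eq_zero.mp h
    · exact absurd h hP0
  rw [hαβ, hα, hβ]
  simp

end Pool.GL.H85
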