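import Pool.Agent.Helper99.GL.FSpec
import Pool.Agent.Helper85.GL.Tool

/-!
# F18c: the ideal `(P, Q)` is radical
-/

set_option autoImplicit false

open MvPolynomial

namespace Pool.GL.H85

/-- Taylor expansion of order one at a point -/
lemma taylor_one (x : Fin 2 → ℂ) (g : MP) : ∃ g1 g2 : MP,
    g = C (eval x g) + g1 * (X 0 - C (x 0)) + g2 * (X 1 - C (x 1)) := by
  induction g using MvPolynomial.induction_on with
  | C c => exact ⟨0, 0, by simp⟩
  | add p q hp hq =>
    obtain ⟨p1, p2, hp⟩ := hp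
    obtain ⟨q1, q2, hq⟩ := hq
    refine ⟨p1 + q1, p2 + q2, ?_⟩
    rw [map_add, C_add]
    linear_combination hp + hq
  | mul_X p i hp =>
    obtain ⟨p1, p2, hp⟩ := hp
    fin_cases i
    · refine ⟨p1 * X 0 + C (eval x p), p2 * X 0, ?_⟩
      rw [map_mul, C_mul]
      simp only [Fin.zero_eta, eval_X]
      linear_combination (X 0) * hp
    · refine ⟨p1 * X 1, p2 * X 1 + C (eval x p), ?_⟩
      rw [map_mul, C_mul]
      simp only [Fin.mk_one, eval_X]
      linear_combination (X 1) * hp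

lemma eval_pderiv_zero (x : Fin 2 → ℂ) {g g1 g2 : MP} {c : ℂ}
    (h : g = C c + g1 * (X 0 - C (x 0)) + g2 * (X 1 - C (x 1))) :
    eval x (pderiv 0 g) = eval x g1 := by
  rw [h]
  simp [Derivation.leibniz, pderiv_X]

lemma eval_pderiv_one (x : Fin 2 → ℂ) {g g1 g2 : MP} {c : ℂ}
    (h : g = C c + g1 * (X 0 - C (x 0)) + g2 * (X 1 - C (x 1))) :
    eval x (pderiv 1 g) = eval x g2 := by
  rw [h]
  simp [Derivation.leibniz, pderiv_X]

lemma ne_zero_of_im {a b : ℂ} (h : (a / b).im ≠ 0) : a ≠ 0 ∧ b ≠ 0 := by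
  constructor
  · rintro rfl; simp at h
  · rintro rfl; simp at h

theorem RADI : S_RADI := by
  intro F hF h hh
  set I : Ideal MP := Ideal.span {F.P, F.Q} with hI
  by_contra hnot
  let J : Ideal MP :=
    { carrier := {g | g * h ∈ I}
      add_mem' := fun {a b} ha hb => by
        show (a + b) * h ∈ I
        rw [add_mul]; exact I.add_mem ha hb
      zero_mem' := by
        show (0 : MP) * h ∈ I
        rw [zero_mul]; exact I.zero_mem
      smul_mem' := fun c {a} ha => by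
        show (c • a) * h ∈ I
        rw [smul_eq_mul, mul_assoc]; exact I.mul_mem_left _ ha }
  have hJ : ∀ g, g ∈ J ↔ g * h ∈ I := fun g => Iff.rfl
  have hJtop : J ≠ ⊤ := by
    intro ht
    have h1 : (1 : MP) ∈ J := by rw [ht]; trivial
    rw [hJ, one_mul] at h1
    exact hnot h1
  obtain ⟨m, hm, hJm⟩ := Ideal.exists_le_maximal J hJtop
  obtain ⟨x, hx⟩ := isMaximal_iff_eq_vanishingIdeal_singleton.mp hm
  have hmem : ∀ g, g ∈ J → eval x g = 0 := by
    intro g hg
    have h1 := hJm hg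
    rw [hx, mem_vanishingIdeal_singleton_iff] at h1
    rw [← coe_aeval_eq_eval]
    exact h1
  have hIJ : ∀ g, g ∈ I → g ∈ J := fun g hg => I.mul_mem_right _ hg
  have hPI : F.P ∈ I := Ideal.subset_span (by simp)
  have hQI : F.Q ∈ I := Ideal.subset_span (by simp)
  have hP0 : eval x F.P = 0 := hmem _ (hIJ _ hPI)
  have hQ0 : eval x F.Q = 0 := hmem _ (hIJ _ hQI)
  have hxx : ![x 0, x 1] = x := by
    ext i; fin_cases i <;> rfl
  have hW : F.W (x 0, x 1) = 0 := by
    simp only [Fld.W]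
    rw [hxx, hP0, hQ0]
    rfl
  have hh0 : eval x h = 0 := by
    have := hh _ hW
    simpa only [hxx] using this
  obtain ⟨ν₁, ν₂, him, _, hdet⟩ := hF.hypAff _ hW
  simp only [hxx] at hdet
  obtain ⟨p1, p2, hp⟩ := taylor_one x F.P
  obtain ⟨q1, q2, hq⟩ := taylor_one x F.Q
  obtain ⟨h1, h2, hhd⟩ := taylor_one x h
  rw [eval_pderiv_zero x hp, eval_pderiv_one x hp, eval_pderiv_zero x hq,
    eval_pderiv_one x hq] at hdet
  rw [hP0, C_0, zero_add] at hp
  rw [hQ0, C_0, zero_add] at hq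
  rw [hh0, C_0, zero_add] at hhd
  have hd : (p1 * q2 - p2 * q1) ∈ J := by
    rw [hJ]
    have he : (p1 * q2 - p2 * q1) * h =
        (h1 * q2 - h2 * q1) * F.P + (h2 * p1 - h1 * p2) * F.Q := by
      rw [hhd, hp, hq]
      ring
    rw [he]
    exact I.add_mem (I.mul_mem_left _ hPI) (I.mul_mem_left _ hQI)
  have hev := hmem _ hd
  rw [map_sub, map_mul, map_mul] at hev
  rw [hev] at hdet
  obtain ⟨hn1, hn2⟩ := ne_zero_of_im him
  exact (mul_ne_zero hn1 hn2) hdet.symm

end Pool.GL.H85
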