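import Pool.Agent.Helper99.GL.FSpec
import Pool.Agent.Helper85.GL.Tool
import Pool.Agent.Helper85.GL.F18b
import Pool.Agent.Helper85.GL.F18c

/-!
# F18d: no inverse integrating factor of degree `d + 1`
-/

set_option autoImplicit false

open MvPolynomial

namespace Pool.GL.H85

/-- components of partial derivatives -/
lemma hc_pderiv (i : Fin 2) (n : ℕ) (f : MP) :
    homogeneousComponent n (pderiv i f) = pderiv i (homogeneousComponent (n + 1) f) := by
  conv_lhs => rw [← sum_homogeneousComponent f]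
  rw [map_sum, map_sum]
  have key : ∀ j ∈ Finset.range (f.totalDegree + 1),
      homogeneousComponent n (pderiv i (homogeneousComponent j f)) =
        if j = n + 1 then pderiv i (homogeneousComponent j f) else 0 := by
    intro j _
    have hj := homogeneousComponent_isHomogeneous j f
    rcases Nat.eq_zero_or_pos j with h0 | hpos
    · subst h0
      rw [if_neg (by omega), homogeneousComponent_zero, pderiv_C, map_zero]
    · rw [hc_of_hom _ (hj.pderiv (i := i))]
      by_cases h : j = n + 1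
      · rw [if_pos h, if_pos (by omega)]
      · rw [if_neg h, if_neg (by omega)]
  rw [Finset.sum_congr rfl key, Finset.sum_ite_eq']
  by_cases h : n + 1 ∈ Finset.range (f.totalDegree + 1)
  · rw [if_pos h]
  · rw [if_neg h]
    rw [Finset.mem_range] at h
    rw [homogeneousComponent_eq_zero _ _ (by omega), map_zero]

lemma totalDegree_pderiv_le {i : Fin 2} {n : ℕ} {f : MP} (hf : f.totalDegree ≤ n + 1) :
    (pderiv i f).totalDegree ≤ n := by
  have h1 : pderiv i f = ∑ j ∈ Finset.range (n + 2), pderiv i (homogeneousComponent j f) := by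
    conv_lhs => rw [← sum_hc hf]
    rw [map_sum]
  rw [h1]
  apply (totalDegree_finsetSum _ _).trans
  apply Finset.sup_le
  intro j hj
  rw [Finset.mem_range] at hj
  exact ((homogeneousComponent_isHomogeneous j f).pderiv (i := i)).totalDegree_le.trans (by omega)

lemma sum_ne_zero_of_im {a b : ℂ} (h : (a / b).im ≠ 0) : a + b ≠ 0 := by
  intro h0
  obtain ⟨_, hb⟩ := ne_zero_of_im h
  have : a = -b := by linear_combination h0
  apply h
  rw [this, neg_div, div_self hb]
  simp

lemma eval_linear (a b : ℂ) (h : (C a * X 0 + C b * X 1 : MP) = 0) : a = 0 ∧ b = 0 := by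
  constructor
  · have := congrArg (eval ![1, 0]) h
    simpa using this
  · have := congrArg (eval ![0, 1]) h
    simpa using this

lemma pderiv_comm (f : MP) : pderiv 0 (pderiv 1 f) = pderiv 1 (pderiv 0 f) := by
  have h : ⁅(pderiv 0 : Derivation ℂ MP MP), (pderiv 1 : Derivation ℂ MP MP)⁆ = 0 := by
    apply MvPolynomial.derivation_ext
    intro i
    rw [Derivation.commutator_apply]
    fin_cases i <;> simp [pderiv_X]
  have h2 := congrArg (fun E : Derivation ℂ MP MP => E f) h
  simp only [Derivation.commutator_apply, Derivation.coe_zero, Pi.zero_apply] at h2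
  exact sub_eq_zero.mp h2

theorem ALG2 (hc : S_COP) (hb : S_HBAS) (hr : S_RADI) : S_ALG2 := by
  intro F hF f hfd htop hpde
  obtain ⟨hcop, hP0, hQ0⟩ := hc F hF
  have hd := hF.hd
  -- zeros of `W`
  have hz : ∀ p : ℂ × ℂ, F.W p = 0 → eval ![p.1, p.2] F.P = 0 ∧ eval ![p.1, p.2] F.Q = 0 := by
    intro p hp
    exact Prod.ext_iff.mp hp
  -- `f` vanishes at the zeros
  have hf0 : ∀ p : ℂ × ℂ, F.W p = 0 → eval ![p.1, p.2] f = 0 := by
    intro p hp
    obtain ⟨h1, h2⟩ := hz p hp
    obtain ⟨ν₁, ν₂, him, htr, _⟩ := hF.hypAff p hp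
    have h3 := congrArg (eval ![p.1, p.2]) hpde
    simp only [map_add, map_mul, h1, h2, zero_mul, add_zero] at h3
    rw [htr] at h3
    rcases mul_eq_zero.mp h3.symm with h | h
    · exact absurd h (sum_ne_zero_of_im him)
    · exact h
  -- the gradient vanishes at the zeros
  have hgrad : ∀ p : ℂ × ℂ, F.W p = 0 → eval ![p.1, p.2] (pderiv 0 f) = 0 ∧
      eval ![p.1, p.2] (pderiv 1 f) = 0 := by
    intro p hp
    obtain ⟨h1, h2⟩ := hz p hp
    have h0 := hf0 p hp
    obtain ⟨ν₁, ν₂, him, htr, hdet⟩ := hF.hypAff p hp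
    obtain ⟨hn1, hn2⟩ := ne_zero_of_im him
    have hdet0 : ν₁ * ν₂ ≠ 0 := mul_ne_zero hn1 hn2
    have h3 := congrArg (fun g => eval ![p.1, p.2] (pderiv 0 g)) hpde
    have h4 := congrArg (fun g => eval ![p.1, p.2] (pderiv 1 g)) hpde
    simp only [map_add, Derivation.leibniz, smul_eq_mul, map_mul, h1, h2, h0, zero_mul,
      zero_add, add_zero] at h3 h4
    set Px := eval ![p.1, p.2] (pderiv 0 F.P)
    set Py := eval ![p.1, p.2] (pderiv 1 F.P)
    set Qx := eval ![p.1, p.2] (pderiv 0 F.Q)
    set Qy := eval ![p.1, p.2] (pderiv 1 F.Q)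
    set fx := eval ![p.1, p.2] (pderiv 0 f)
    set fy := eval ![p.1, p.2] (pderiv 1 f)
    constructor
    · have h5 : (ν₁ * ν₂) * fx = 0 := by
        rw [← hdet]
        linear_combination (-Px) * h3 - Qx * h4
      exact (mul_eq_zero.mp h5).resolve_left hdet0
    · have h5 : (ν₁ * ν₂) * fy = 0 := by
        rw [← hdet]
        linear_combination (-Py) * h3 - Qy * h4
      exact (mul_eq_zero.mp h5).resolve_left hdet0
  -- the partial derivatives belong to the ideal
  obtain ⟨⟨α, β, hx⟩, _⟩ := hb F hF (pderiv 0 f) (hr F hF _ fun p hp => (hgrad p hp).1)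
    (totalDegree_pderiv_le hfd)
  obtain ⟨⟨γ, δ, hy⟩, _⟩ := hb F hF (pderiv 1 f) (hr F hF _ fun p hp => (hgrad p hp).2)
    (totalDegree_pderiv_le hfd)
  set Pd := homogeneousComponent F.d F.P with hPd
  set Qd := homogeneousComponent F.d F.Q with hQd
  have hPh : Pd.IsHomogeneous F.d := homogeneousComponent_isHomogeneous _ _
  -- top parts
  have hx' := congrArg (homogeneousComponent F.d) hx
  have hy' := congrArg (homogeneousComponent F.d) hy
  rw [hc_pderiv, map_add, homogeneousComponent_C_mul, homogeneousComponent_C_mul] at hx' hy'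
  have heuler := (homogeneousComponent_isHomogeneous (F.d + 1) f).sum_X_mul_pderiv
  rw [Fin.sum_univ_two, hx', hy', htop, nsmul_eq_mul] at heuler
  rw [← hPd, ← hQd] at heuler
  set n : MP := ((F.d + 1 : ℕ) : MP) with hn
  have hnC : n = C ((F.d : ℂ) + 1) := by
    rw [hn]; push_cast; rw [map_add, map_natCast, map_one]
  rw [hnC] at heuler
  have hrel : (C α * X 0 + C (γ + ((F.d : ℂ) + 1)) * X 1) * Pd =
      (C (((F.d : ℂ) + 1) - β) * X 0 + C (-δ) * X 1) * Qd := by
    simp only [map_add, map_sub, map_neg] at heuler ⊢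
    linear_combination heuler
  -- the right linear form vanishes
  have hl2 : (C (((F.d : ℂ) + 1) - β) * X 0 + C (-δ) * X 1 : MP) = 0 := by
    have hdvd : Pd ∣ (C (((F.d : ℂ) + 1) - β) * X 0 + C (-δ) * X 1 : MP) := by
      apply hcop.dvd_of_dvd_mul_right
      exact ⟨_, by rw [← hrel, mul_comm]⟩
    have hlin : (C (((F.d : ℂ) + 1) - β) * X 0 + C (-δ) * X 1 : MP).IsHomogeneous 1 :=
      (isHomogeneous_C_mul_X _ _).add (isHomogeneous_C_mul_X _ _)
    rcases hom_dvd hPh hlin hdvd with h | ⟨h, _⟩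
    · exact h
    · omega
  have hl1 : (C α * X 0 + C (γ + ((F.d : ℂ) + 1)) * X 1 : MP) = 0 := by
    rw [hl2, zero_mul] at hrel
    exact (mul_eq_zero.mp hrel).resolve_right hP0
  obtain ⟨hβ, hδ⟩ := eval_linear _ _ hl2
  obtain ⟨hα, hγ⟩ := eval_linear _ _ hl1
  have hβ' : β = (F.d : ℂ) + 1 := by linear_combination -hβ
  have hδ' : δ = 0 := by linear_combination -hδ
  have hγ' : γ = -((F.d : ℂ) + 1) := by linear_combination hγ
  rw [hα, hβ', C_0, zero_mul, zero_add] at hx
  rw [hγ', hδ', C_0, zero_mul, add_zero] at hy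
  have hcomm := pderiv_comm f
  rw [hx, hy, pderiv_C_mul, pderiv_C_mul, C_neg] at hcomm
  have hdiv : pderiv 0 F.P + pderiv 1 F.Q = 0 := by
    have h1 : (C ((F.d : ℂ) + 1) : MP) * (pderiv 0 F.P + pderiv 1 F.Q) = 0 := by
      linear_combination -hcomm
    have h2 : (C ((F.d : ℂ) + 1) : MP) ≠ 0 := by
      rw [Ne, C_eq_zero]
      exact_mod_cast Nat.succ_ne_zero F.d
    exact (mul_eq_zero.mp h1).resolve_left h2
  -- there is a zero
  have hex : ∃ p : ℂ × ℂ, F.W p = 0 := by
    by_contra hno
    push Not at hno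
    have h1 : (1 : MP) ∈ Ideal.span {F.P, F.Q} := hr F hF 1 fun p hp => absurd hp (hno p)
    have h2 := (hb F hF 1 h1 (by rw [totalDegree_one]; omega)).2 (by rw [totalDegree_one]; omega)
    exact one_ne_zero h2
  obtain ⟨p, hp⟩ := hex
  obtain ⟨ν₁, ν₂, him, htr, _⟩ := hF.hypAff p hp
  apply sum_ne_zero_of_im him
  rw [← htr, ← map_add, hdiv, map_zero]

end Pool.GL.H85
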